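import Pool.Agent.R437.Met.Hs
import Pool.Agent.Results.MP_2794d1_ag.BoundedEndomorphisms

/-!
# CM points of variations of Hodge structure near a given point

For a variation of Hodge structure over an open subset `U` of an affine space (given by matrices `F_j` of analytic
functions whose columns span the pieces of the Hodge filtration in a flat basis) and a number field `K` in `ℂ`, all
points `ξ` outside a set of Hausdorff dimension at most `2 [K : ℚ] (|X| - 1) / τ` have no `K`-rational CM points of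
height at most `T` at distance at most `C T ^ (-τ)`, `T` large, with multiplications of bounded size with distinct
eigenvalues; if the base is one-dimensional, then the set of exceptional `ξ` has dimension zero, for all `τ > 0`
simultaneously. The size `T ^ ω T` of the multiplications, the norm of the points and the inverse of their distance to the
complement of `U` may tend to infinity with `T`.

Proof. The starting file `BoundedEndomorphisms` bounds the number of all such points of height at most `T` in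
`U`, and the set of the `ξ` with such points nearby for arbitrarily large `T` is covered by small balls around them.
-/

set_option autoImplicit false

open NumberField

namespace Pool.Agent.Results.MP_2794d1_ag.NearEveryPoint

open Filter Pool.Agent Pool.Agent.Y890.MV Pool.Agent.Y890.VH Pool.Agent.R437.Met

lemma htLe_isPt {K : Type} [Field K] [NumberField K] {T : ℝ} {x : K} (h : Y120.HtLe K T x) : Hs.IsPt K T x := by
  obtain ⟨a, b, hb, ha', hb', hx⟩ := h
  refine ⟨a, b, hb, fun φ => ⟨le_trans ?_ ha', le_trans ?_ hb'⟩, hx⟩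
  · exact norm_le_pi_norm (canonicalEmbedding K (a : K)) φ
  · exact norm_le_pi_norm (canonicalEmbedding K (b : K)) φ

lemma htLe_mono {K : Type} [Field K] [NumberField K] {T T' : ℝ} (hT : T ≤ T') {x : K} (h : Y120.HtLe K T x) :
    Y120.HtLe K T' x := by
  obtain ⟨a, b, hb, ha', hb', hx⟩ := h
  exact ⟨a, b, hb, ha'.trans hT, hb'.trans hT, hx⟩

lemma inner_mono {X : Type} [Fintype X] {U : Set (X → ℂ)} {k k' : ℕ} (hk : 0 < k) (h : k ≤ k') :
    InnerM U k ⊆ InnerM U k' := by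
  rintro z ⟨h1, h2⟩
  have hk' : (0 : ℝ) < k := by exact_mod_cast hk
  have hkk : (k : ℝ) ≤ k' := by exact_mod_cast h
  exact ⟨h1.trans hkk, (Metric.ball_subset_ball (inv_anti₀ hk' hkk)).trans h2⟩

lemma exc_mono {X H J : Type} [Fintype X] [DecidableEq X] [Nonempty X] [Fintype H] [DecidableEq H] [Fintype J]
    [DecidableEq J] {r : J → ℕ} {U : Set (X → ℂ)} {f : Sg H J r → (X → ℂ) → ℂ} {K : Type} [Field K] [NumberField K]
    {io : K →+* ℂ} {Γ : Subgroup (GL H ℂ)} {k k' : ℕ} (hk : 0 < k) (hkk : k ≤ k') {T T' : ℝ} (hT : 1 ≤ T)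
    (hTT : T ≤ T') :
    ExcEnd f (InnerM U k) K io Γ (k : ℝ) T ⊆ ExcEnd f (InnerM U k') K io Γ (k' : ℝ) T' := by
  rintro s ⟨h1, h2, M, h3, h4, h5⟩
  refine ⟨fun j => htLe_mono hTT (h1 j), inner_mono hk hkk h2, M, fun i j φ => (h3 i j φ).trans ?_, h4, h5⟩
  have hkk' : (k : ℝ) ≤ k' := by exact_mod_cast hkk
  exact (Real.rpow_le_rpow (by linarith) hTT (by positivity)).trans
    (Real.rpow_le_rpow_of_exponent_le (hT.trans hTT) hkk')

/-- the covering argument -/
theorem near {X H J : Type} [Fintype X] [DecidableEq X] [Nonempty X] [Fintype H] [DecidableEq H] [Fintype J]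
    [DecidableEq J] {r : J → ℕ} {U : Set (X → ℂ)} {f : Sg H J r → (X → ℂ) → ℂ} (Γ : Subgroup (GL H ℂ))
    (ω : ℝ → ℕ) (T₀ : ℝ) (hω : Tendsto ω atTop atTop) (hmono : Monotone ω) (K : Type) [Field K] [NumberField K]
    (io : K →+* ℂ)
    (h : ∀ T, T₀ ≤ T → 0 < ω T ∧ (Module.finrank ℚ K ≤ ω T →
      (ExcEnd f (InnerM U (ω T)) K io Γ (ω T : ℝ) T).Finite ∧
        ((ExcEnd f (InnerM U (ω T)) K io Γ (ω T : ℝ) T).ncard : ℝ) ≤
          T ^ ((ω T : ℝ)⁻¹) * ({x : K | Y120.HtLe K T x}.ncard : ℝ) ^ (Fintype.card X - 1)))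
    (τ : ℝ) (hτ : 0 < τ) :
    ∃ E : Set (X → ℂ), dimH E ≤ ENNReal.ofReal (2 * (Module.finrank ℚ K : ℝ) * ((Fintype.card X : ℝ) - 1) / τ) ∧
      ∀ ξ : X → ℂ, ξ ∉ E → ∀ C : ℝ, ∃ T₁ : ℝ, ∀ T : ℝ, T₁ ≤ T →
        ∀ s ∈ ExcEnd f (InnerM U (ω T)) K io Γ (ω T : ℝ) T, C * T ^ (-τ) < dist ξ (fun j => io (s j)) := by
  classical
  set d : ℕ := Module.finrank ℚ K with hd
  have hn1 : 1 ≤ Fintype.card X := Fintype.card_pos
  have hn : (1 : ℝ) ≤ Fintype.card X := by exact_mod_cast hn1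
  obtain ⟨C₁, hC₁, hN⟩ := Hs.pt_count K
  have hN' : ∀ T : ℝ, 1 ≤ T → ({x : K | Y120.HtLe K T x}.ncard : ℝ) ^ (Fintype.card X - 1) ≤
      C₁ ^ (Fintype.card X - 1) * T ^ (2 * (d : ℝ) * ((Fintype.card X : ℝ) - 1)) := by
    intro T hT
    have h1 : ({x : K | Y120.HtLe K T x}.ncard : ℝ) ≤ C₁ * T ^ (2 * d) := by
      refine le_trans ?_ (hN T hT)
      exact_mod_cast Set.ncard_le_ncard (fun x hx => htLe_isPt hx) (Hs.pt_finite K T)
    refine (pow_le_pow_left₀ (Nat.cast_nonneg _) h1 _).trans (le_of_eq ?_)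
    rw [mul_pow, ← pow_mul, ← Real.rpow_natCast T]
    congr 2
    push_cast [Nat.cast_sub hn1]
    ring
  set S : ℕ → Set (X → K) := fun k => if T₀ ≤ (2 : ℝ) ^ k ∧ d ≤ ω ((2 : ℝ) ^ k) then
    ExcEnd f (InnerM U (ω ((2 : ℝ) ^ k))) K io Γ (ω ((2 : ℝ) ^ k) : ℝ) ((2 : ℝ) ^ k) else ∅ with hS
  have h2k : Tendsto (fun k : ℕ => (2 : ℝ) ^ k) atTop atTop := tendsto_pow_atTop_atTop_of_one_lt (by norm_num)
  obtain ⟨E, hE, hE'⟩ := Fam.block (fun s : X → K => fun j => io (s j)) S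
    (s := 2 * (d : ℝ) * ((Fintype.card X : ℝ) - 1)) (τ := τ)
    (mul_nonneg (by positivity) (by linarith)) hτ (by
      intro δ hδ
      obtain ⟨m, hm⟩ := exists_nat_gt (1 / δ)
      obtain ⟨k₀, hk₀⟩ := eventually_atTop.1 ((hω.comp h2k).eventually_ge_atTop (m + 1))
      refine ⟨(2 : ℝ) ^ k₀ * C₁ ^ (Fintype.card X - 1), fun k => ?_⟩
      have hk1 : (1 : ℝ) ≤ 2 ^ k := one_le_pow₀ (by norm_num)
      rw [hS]
      dsimp only
      split_ifs with hk
      · obtain ⟨hpos, hfin⟩ := h _ hk.1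
        obtain ⟨h1, h2⟩ := hfin hk.2
        refine ⟨h1, h2.trans ?_⟩
        have hω1 : (1 : ℝ) ≤ ω ((2 : ℝ) ^ k) := by exact_mod_cast hpos
        have h3 : ((2 : ℝ) ^ k) ^ ((ω ((2 : ℝ) ^ k) : ℝ)⁻¹) ≤ 2 ^ k₀ * ((2 : ℝ) ^ k) ^ δ := by
          have h4 : (1 : ℝ) ≤ ((2 : ℝ) ^ k) ^ δ := Real.one_le_rpow hk1 hδ.le
          have h5 : (1 : ℝ) ≤ 2 ^ k₀ := one_le_pow₀ (by norm_num)
          rcases le_total k₀ k with hkk | hkk
          · have h6 := hk₀ k hkk
            have h7 : (ω ((2 : ℝ) ^ k) : ℝ)⁻¹ ≤ δ := by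
              have h8 : ((m + 1 : ℕ) : ℝ) ≤ ω ((2 : ℝ) ^ k) := by exact_mod_cast h6
              push_cast at h8
              have h9 : 1 / δ ≤ ω ((2 : ℝ) ^ k) := by linarith
              rw [inv_le_comm₀ (by linarith) hδ, ← one_div]
              exact h9
            calc ((2 : ℝ) ^ k) ^ ((ω ((2 : ℝ) ^ k) : ℝ)⁻¹) ≤ ((2 : ℝ) ^ k) ^ δ :=
                  Real.rpow_le_rpow_of_exponent_le hk1 h7
              _ ≤ 2 ^ k₀ * ((2 : ℝ) ^ k) ^ δ := le_mul_of_one_le_left (by linarith) h5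
          · calc ((2 : ℝ) ^ k) ^ ((ω ((2 : ℝ) ^ k) : ℝ)⁻¹) ≤ ((2 : ℝ) ^ k) ^ (1 : ℝ) :=
                  Real.rpow_le_rpow_of_exponent_le hk1 (inv_le_one_of_one_le₀ hω1)
              _ = 2 ^ k := Real.rpow_one _
              _ ≤ 2 ^ k₀ := pow_le_pow_right₀ (by norm_num) hkk
              _ ≤ 2 ^ k₀ * ((2 : ℝ) ^ k) ^ δ := le_mul_of_one_le_right (by linarith) h4
        calc _ ≤ (2 ^ k₀ * ((2 : ℝ) ^ k) ^ δ) * (C₁ ^ (Fintype.card X - 1) *
              ((2 : ℝ) ^ k) ^ (2 * (d : ℝ) * ((Fintype.card X : ℝ) - 1))) :=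
              mul_le_mul h3 (hN' _ hk1) (by positivity) (by positivity)
          _ = _ := by
              rw [Real.rpow_add (by positivity : (0 : ℝ) < 2 ^ k)]
              ring
      · refine ⟨Set.finite_empty, ?_⟩
        rw [Set.ncard_empty, Nat.cast_zero]
        positivity)
  refine ⟨E, hE, fun ξ hξ C => ?_⟩
  obtain ⟨k₁, hk₁⟩ := hE' ξ hξ (|C| * 2 ^ τ)
  obtain ⟨k₂, hk₂⟩ := eventually_atTop.1 ((hω.comp h2k).eventually_ge_atTop d)
  obtain ⟨k₃, hk₃⟩ := eventually_atTop.1 (h2k.eventually_ge_atTop T₀)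
  refine ⟨max (max 1 T₀) (2 ^ (max k₁ (max k₂ k₃))), fun T hT s hs => ?_⟩
  have hT1 : 1 ≤ T := (le_max_left _ _).trans ((le_max_left _ _).trans hT)
  have hT0 : T₀ ≤ T := (le_max_right _ _).trans ((le_max_left _ _).trans hT)
  have hT2 : (2 : ℝ) ^ (max k₁ (max k₂ k₃)) ≤ T := (le_max_right _ _).trans hT
  obtain ⟨k, hk, hk'⟩ : ∃ k : ℕ, T ≤ 2 ^ k ∧ (2 : ℝ) ^ k ≤ 2 * T := by
    have hne : ∃ k : ℕ, T ≤ 2 ^ k := by
      obtain ⟨k, hk⟩ := pow_unbounded_of_one_lt T (by norm_num : (1 : ℝ) < 2)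
      exact ⟨k, hk.le⟩
    refine ⟨Nat.find hne, Nat.find_spec hne, ?_⟩
    rcases Nat.eq_zero_or_pos (Nat.find hne) with h0 | h0
    · rw [h0]
      norm_num
      linarith
    · have h1 := Nat.find_min hne (m := Nat.find hne - 1) (by omega)
      push Not at h1
      have h2 : (2 : ℝ) ^ (Nat.find hne) = 2 * 2 ^ (Nat.find hne - 1) := by
        rw [← pow_succ']
        congr 1
        omega
      rw [h2]
      linarith
  have hkm : max k₁ (max k₂ k₃) ≤ k := (pow_le_pow_iff_right₀ (by norm_num : (1 : ℝ) < 2)).1 (hT2.trans hk)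
  have hmem : s ∈ S k := by
    rw [hS]
    dsimp only
    rw [if_pos ⟨hk₃ k (by omega), hk₂ k (by omega)⟩]
    exact exc_mono (h T hT0).1 (hmono hk) hT1 hk hs
  have h1 := hk₁ k (by omega) s hmem
  refine lt_of_le_of_lt ?_ h1
  have hTp : 0 < T := by linarith
  have h2 : T ^ (-τ) ≤ 2 ^ τ * ((2 : ℝ) ^ k) ^ (-τ) := by
    have h3 : (2 * T) ^ (-τ) ≤ ((2 : ℝ) ^ k) ^ (-τ) :=
      Real.rpow_le_rpow_of_nonpos (by positivity) hk' (by linarith)
    rw [Real.mul_rpow (by norm_num) hTp.le, Real.rpow_neg (by norm_num : (0 : ℝ) ≤ 2)] at h3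
    have h4 : (0 : ℝ) < 2 ^ τ := by positivity
    calc T ^ (-τ) = 2 ^ τ * ((2 ^ τ)⁻¹ * T ^ (-τ)) := by
          rw [← mul_assoc, mul_inv_cancel₀ h4.ne', one_mul]
      _ ≤ _ := mul_le_mul_of_nonneg_left h3 h4.le
  calc C * T ^ (-τ) ≤ |C| * T ^ (-τ) := mul_le_mul_of_nonneg_right (le_abs_self C) (by positivity)
    _ ≤ |C| * (2 ^ τ * ((2 : ℝ) ^ k) ^ (-τ)) := mul_le_mul_of_nonneg_left h2 (abs_nonneg C)
    _ = |C| * 2 ^ τ * ((2 : ℝ) ^ k) ^ (-τ) := by ring

/-- **CM points near a given point.** Let `U` be a nonempty connected open subset of `ℂ ^ X`, and `F_j`, `j` in a finite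
set `J`, matrices of analytic functions on `U` with rows indexed by `H` and `r j` columns (`f ⟨j, (m, c)⟩` is the entry
`(m, c)` of `F_j`; e.g. bases of the pieces of the Hodge filtration in a flat basis). Assume that the elements of the
field generated by `x` and the entries which are algebraic over `ℂ(x)` are in `ℂ(x)` (`RegularM`), and let `Γ` be a
subgroup of `GL_H(ℂ)` such that all polynomial relations over `ℂ[x]` between the entries of the `F_j` on `U` are
relations between the entries of the matrices `γ F_j`, for all `γ ∈ Γ` (`MonInv`; e.g. the monodromy group). There is a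
monotone `ω → ∞` such that for every number field `K` with an embedding `io` in `ℂ`:

(1) for every `τ > 0` there is a set `E` of Hausdorff dimension at most `2 [K : ℚ] (|X| - 1) / τ` such that for all `ξ`
outside `E`, all `C` and all large `T` the points of the set `ExcEnd` with parameter `ω T` (points `s` of `U` with
coordinates in `K` of height at most `T`, norm at most `ω T` and distance at least `1 / ω T` from the complement of `U`,
with a matrix over the integers of `K`, with conjugates at most `T ^ ω T`, which preserves the column spaces of all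
`F_j(s)` but not those of all `γ F_j(s)`) have distance greater than `C T ^ (-τ)` from `ξ`, and so have the points of
`CMPts` (the same with a matrix with distinct eigenvalues which preserves the column spaces of all `F_j(s)`) if `Γ` is
infinite and for every `x ∈ U` only finitely many elements of `Γ` preserve the column spaces of all `F_j(x)`;
(2) if `|X| = 1`, then there is one set `E` of Hausdorff dimension zero with this property for all `τ > 0`. -/
theorem result {X H J : Type} [Fintype X] [DecidableEq X] [Nonempty X] [Fintype H] [DecidableEq H] [Fintype J]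
    [DecidableEq J] {r : J → ℕ} {U : Set (X → ℂ)} {f : Sg H J r → (X → ℂ) → ℂ}
    (hU : IsPreconnected U) (hUo : IsOpen U) (hne : U.Nonempty) (hf : ∀ i, AnalyticOnNhd ℂ (f i) U)
    (hreg : RegularM U f) (Γ : Subgroup (GL H ℂ)) (hΓ : ∀ γ ∈ Γ, MonInv U f (γ : Matrix H H ℂ)) :
    ∃ ω : ℝ → ℕ, Tendsto ω atTop atTop ∧ Monotone ω ∧ ∀ (K : Type) [Field K] [NumberField K] (io : K →+* ℂ),
      (∀ τ : ℝ, 0 < τ → ∃ E : Set (X → ℂ),
        dimH E ≤ ENNReal.ofReal (2 * (Module.finrank ℚ K : ℝ) * ((Fintype.card X : ℝ) - 1) / τ) ∧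
        ∀ ξ : X → ℂ, ξ ∉ E → ∀ C : ℝ, ∃ T₁ : ℝ, ∀ T : ℝ, T₁ ≤ T → ∀ s : X → K,
          (s ∈ ExcEnd f (InnerM U (ω T)) K io Γ (ω T : ℝ) T ∨
            (Infinite Γ ∧ (∀ x ∈ U, (Stab Γ fun y => f y x).Finite) ∧
              s ∈ CMPts f (InnerM U (ω T)) K io (ω T : ℝ) T)) →
            C * T ^ (-τ) < dist ξ (fun j => io (s j))) ∧
      (Fintype.card X = 1 → ∃ E : Set (X → ℂ), dimH E = 0 ∧
        ∀ ξ : X → ℂ, ξ ∉ E → ∀ τ C : ℝ, 0 < τ → ∃ T₁ : ℝ, ∀ T : ℝ, T₁ ≤ T → ∀ s : X → K,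
          (s ∈ ExcEnd f (InnerM U (ω T)) K io Γ (ω T : ℝ) T ∨
            (Infinite Γ ∧ (∀ x ∈ U, (Stab Γ fun y => f y x).Finite) ∧
              s ∈ CMPts f (InnerM U (ω T)) K io (ω T : ℝ) T)) →
            C * T ^ (-τ) < dist ξ (fun j => io (s j))) := by
  obtain ⟨ω, T₀, hω, hmono, h⟩ := BoundedEndomorphisms.result hU hUo hne hf hreg Γ hΓ
  refine ⟨ω, hω, hmono, fun K _ _ io => ?_⟩
  have key : ∀ τ : ℝ, 0 < τ → ∃ E : Set (X → ℂ),
        dimH E ≤ ENNReal.ofReal (2 * (Module.finrank ℚ K : ℝ) * ((Fintype.card X : ℝ) - 1) / τ) ∧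
        ∀ ξ : X → ℂ, ξ ∉ E → ∀ C : ℝ, ∃ T₁ : ℝ, ∀ T : ℝ, T₁ ≤ T → ∀ s : X → K,
          (s ∈ ExcEnd f (InnerM U (ω T)) K io Γ (ω T : ℝ) T ∨
            (Infinite Γ ∧ (∀ x ∈ U, (Stab Γ fun y => f y x).Finite) ∧
              s ∈ CMPts f (InnerM U (ω T)) K io (ω T : ℝ) T)) →
            C * T ^ (-τ) < dist ξ (fun j => io (s j)) := by
    intro τ hτ
    obtain ⟨E, hE, hE'⟩ := near (U := U) (f := f) Γ ω T₀ hω hmono K io (fun T hT => by
      obtain ⟨h1, h2⟩ := h T hT
      refine ⟨h1, fun h3 => ?_⟩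
      obtain ⟨-, h4, h5, -⟩ := h2 K h3 io
      exact ⟨h4, h5⟩) τ hτ
    refine ⟨E, hE, fun ξ hξ C => ?_⟩
    obtain ⟨T₁, hT₁⟩ := hE' ξ hξ C
    obtain ⟨T₂, hT₂⟩ := eventually_atTop.1 (hω.eventually_ge_atTop (Module.finrank ℚ K))
    refine ⟨max T₁ (max T₂ T₀), fun T hT s hs => ?_⟩
    have e1 : T₁ ≤ T := (le_max_left _ _).trans hT
    have e2 : T₂ ≤ T := (le_max_left _ _).trans ((le_max_right _ _).trans hT)
    have e3 : T₀ ≤ T := (le_max_right _ _).trans ((le_max_right _ _).trans hT)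
    rcases hs with hs | ⟨h1, h2, h3⟩
    · exact hT₁ T e1 s hs
    · obtain ⟨-, -, -, h4⟩ := (h T e3).2 K (hT₂ T e2) io
      exact hT₁ T e1 s (h4 h1 h2 h3)
  refine ⟨key, fun hX => ?_⟩
  have h1 := fun k : ℕ => key (1 / ((k : ℝ) + 1)) (by positivity)
  choose E hE hE' using h1
  refine ⟨⋃ k, E k, ?_, fun ξ hξ τ C hτ => ?_⟩
  · refine le_antisymm ?_ bot_le
    rw [dimH_iUnion]
    refine iSup_le fun k => (hE k).trans (le_of_eq ?_)
    rw [hX]
    simp
  · obtain ⟨k, hk⟩ := exists_nat_one_div_lt hτ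
    obtain ⟨T₁, hT₁⟩ := hE' k ξ (fun hmem => hξ (Set.mem_iUnion.2 ⟨k, hmem⟩)) |C|
    refine ⟨max T₁ 1, fun T hT s hs => lt_of_le_of_lt ?_ (hT₁ T ((le_max_left _ _).trans hT) s hs)⟩
    have hT1 : 1 ≤ T := (le_max_right _ _).trans hT
    exact mul_le_mul (le_abs_self C) (Fam.pow_mono (by linarith) hT1) (by positivity) (abs_nonneg C)

end Pool.Agent.Results.MP_2794d1_ag.NearEveryPoint
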