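import Pool.Agent.R909.RandSets
import Pool.Agent.R479.DA.Lim
import Pool.Agent.Results.MP_2794d1_ag.BoundedEndomorphisms

/-!
# CM points of one-parameter variations of Hodge structure in random sets

For a variation of Hodge structure over an open subset `U` of the affine line (given by matrices `F_j`
of analytic functions whose columns span the pieces of the Hodge filtration in a flat basis), a
number field `K` in `ℂ`, `γ > 0` and a random subset `A` of `K` which contains `s` with probability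
`O (H (s) ^ (-γ))`, almost surely for all `k` only finitely many elements `s` of `A` in a compact part
of `U` are points with complex multiplication by a matrix over the integers of `K` of size at most
`H (s) ^ k` with distinct eigenvalues. There is no independence; `A` may contain almost all of the
`H ^ 2` elements of `K` of height at most `H`, up to the factor `H ^ (-γ)`, `γ` as small as we like.
-/

set_option autoImplicit false
set_option linter.unusedSectionVars false

open NumberField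

namespace Pool.Agent.Results.MP_2794d1_ag.RandomCMPoints

open Filter Topology MeasureTheory Pool.Agent Pool.Agent.Y890.MV Pool.Agent.Y890.VH

/-- the height of a tuple `s` of elements of `K`: one plus the least natural number `n` such that all
`s j` are quotients of integers of `K` all of whose conjugates have absolute value at most `n` -/
noncomputable def ht {X : Type} {K : Type} [Field K] [NumberField K] (s : X → K) : ℕ :=
  sInf {n : ℕ | ∀ j, Y120.HtLe K (n : ℝ) (s j)} + 1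

/-- `s` belongs to the random set `A` with probability at most `C * H (s) ^ (-γ)` -/
def Sparse {Ω X K : Type} [Field K] [NumberField K] [MeasurableSpace Ω] (P : Measure Ω)
    (A : Ω → Set (X → K)) (γ C : ℝ) : Prop :=
  ∀ s : X → K, P {ω | s ∈ A ω} ≤ ENNReal.ofReal (C * (ht s : ℝ) ^ (-γ))

section

variable {H J : Type} [Fintype H] [DecidableEq H] [Fintype J] [DecidableEq J] {r : J → ℕ}
  {X : Type} [Fintype X] [DecidableEq X] [Nonempty X]

lemma innerM_mono (U : Set (X → ℂ)) {k k' : ℕ} (hk : 1 ≤ k) (hkk : k ≤ k') :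
    InnerM U k ⊆ InnerM U k' := by
  have h1 : (0 : ℝ) < k := by exact_mod_cast hk
  have h2 : (k : ℝ) ≤ k' := by exact_mod_cast hkk
  rintro z ⟨h3, h4⟩
  exact ⟨h3.trans h2, (Metric.ball_subset_ball (inv_anti₀ h1 h2)).trans h4⟩

lemma innerM_subset (U : Set (X → ℂ)) {k : ℕ} (hk : 1 ≤ k) : InnerM U k ⊆ U := by
  have h1 : (0 : ℝ) < k := by exact_mod_cast hk
  rintro z ⟨-, h4⟩
  exact h4 (Metric.mem_ball_self (inv_pos.2 h1))

lemma htLe_mono {K : Type} [Field K] [NumberField K] {T T' : ℝ} (hT : T ≤ T') {x : K}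
    (h : Y120.HtLe K T x) : Y120.HtLe K T' x := by
  obtain ⟨a, b, h1, h2, h3, h4⟩ := h
  exact ⟨a, b, h1, h2.trans hT, h3.trans hT, h4⟩

lemma excEnd_mono {f : Sg H J r → (X → ℂ) → ℂ} {Lc Lc' : Set (X → ℂ)} (hL : Lc ⊆ Lc') {K : Type}
    [Field K] [NumberField K] (io : K →+* ℂ) (Γ : Subgroup (GL H ℂ)) {a a' T T' : ℝ}
    (ha0 : 0 ≤ a) (ha : a ≤ a') (hT1 : 1 ≤ T) (hT : T ≤ T') :
    ExcEnd f Lc K io Γ a T ⊆ ExcEnd f Lc' K io Γ a' T' := by
  rintro s ⟨h1, h2, M, h3, h4, h5⟩
  refine ⟨fun j => htLe_mono hT (h1 j), hL h2, M, fun i j φ => (h3 i j φ).trans ?_, h4, h5⟩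
  calc T ^ a ≤ T' ^ a := Real.rpow_le_rpow (by linarith) hT ha0
    _ ≤ T' ^ a' := Real.rpow_le_rpow_of_exponent_le (by linarith) ha

end

/-- **CM points in random sets.** Let `U` be a nonempty connected open subset of `ℂ ^ X`, `|X| = 1`,
and `F_j`, `j` in a finite set `J`, matrices of analytic functions on `U` (`f ⟨j, (m, c)⟩` is the
entry `(m, c)` of `F_j`) with `RegularM U f`, and `Γ` a subgroup of `GL_H(ℂ)` with `MonInv U f γ` for
all `γ ∈ Γ`. Let `K` be a number field with an embedding in `ℂ`, `γ > 0` and `A` a random set of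
`K`-rational points with `P (s ∈ A) ≤ C H (s) ^ (-γ)`.

(1) Almost surely for all `k ≥ 1` only finitely many `s ∈ A` are in `InnerM U k` and have an
endomorphism (a matrix over the integers of `K`, with conjugates at most `H (s) ^ k`, which preserves
the column spaces of all `F_j(s)`) which does not preserve the column spaces of all `g F_j(s)`,
`g ∈ Γ`; and the probability that there is one with `H (s) ≥ y` in `A` is `O (y ^ (-γ / 2))`.

(2) If `Γ` is infinite and for every `x ∈ U` only finitely many elements of `Γ` preserve the column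
spaces of all `F_j(x)`, then almost surely for all `k ≥ 1` only finitely many `s ∈ A` are in
`InnerM U k` and have an endomorphism with conjugates at most `H (s) ^ k` and distinct
eigenvalues. -/
theorem result {X H J : Type} [Fintype X] [DecidableEq X] [Nonempty X] [Fintype H] [DecidableEq H]
    [Fintype J] [DecidableEq J] (hX : Fintype.card X = 1) {r : J → ℕ} {U : Set (X → ℂ)}
    {f : Sg H J r → (X → ℂ) → ℂ}
    (hU : IsPreconnected U) (hUo : IsOpen U) (hne : U.Nonempty) (hf : ∀ i, AnalyticOnNhd ℂ (f i) U)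
    (hreg : RegularM U f) (Γ : Subgroup (GL H ℂ)) (hΓ : ∀ γ ∈ Γ, MonInv U f (γ : Matrix H H ℂ))
    (K : Type) [Field K] [NumberField K] (io : K →+* ℂ) (γ : ℝ) (hγ : 0 < γ)
    (Ω : Type) [MeasurableSpace Ω] (P : Measure Ω) (A : Ω → Set (X → K)) (C : ℝ)
    (hA : Sparse P A γ C) :
    ((∀ᵐ ω ∂P, ∀ k : ℕ, 1 ≤ k →
        {s : X → K | s ∈ A ω ∧ s ∈ ExcEnd f (InnerM U k) K io Γ (k : ℝ) (ht s : ℝ)}.Finite) ∧
      ∀ k : ℕ, 1 ≤ k → ∃ D : ℝ, ∀ y : ℝ, 1 ≤ y →
        P {ω | ∃ s : X → K, s ∈ A ω ∧ y ≤ (ht s : ℝ) ∧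
          s ∈ ExcEnd f (InnerM U k) K io Γ (k : ℝ) (ht s : ℝ)} ≤
          ENNReal.ofReal (D * y ^ (-(γ / 2)))) ∧
    (Infinite Γ → (∀ x ∈ U, (Stab Γ fun y => f y x).Finite) →
      (∀ᵐ ω ∂P, ∀ k : ℕ, 1 ≤ k →
        {s : X → K | s ∈ A ω ∧ s ∈ CMPts f (InnerM U k) K io (k : ℝ) (ht s : ℝ)}.Finite)) := by
  classical
  obtain ⟨ω, T₀, hω, -, hmain⟩ := BoundedEndomorphisms.result hU hUo hne hf hreg Γ hΓ
  have hone : ∀ s : X → K, (1 : ℝ) ≤ (ht s : ℝ) := by
    intro s
    unfold ht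
    push_cast
    have : (0 : ℝ) ≤ ((sInf {n : ℕ | ∀ j, Y120.HtLe K (n : ℝ) (s j)} : ℕ) : ℝ) :=
      Nat.cast_nonneg _
    linarith
  have key : ∀ k : ℕ, 1 ≤ k →
      (∀ᵐ ω' ∂P, {s : X → K | s ∈ ExcEnd f (InnerM U k) K io Γ (k : ℝ) (ht s : ℝ) ∧
        s ∈ A ω'}.Finite) ∧
      ∃ D : ℝ, ∀ y : ℝ, 1 ≤ y →
        P {ω' | ∃ s : X → K, s ∈ ExcEnd f (InnerM U k) K io Γ (k : ℝ) (ht s : ℝ) ∧
          y ≤ (ht s : ℝ) ∧ s ∈ A ω'} ≤ ENNReal.ofReal (D * y ^ (-(γ / 2))) := by
    intro k hk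
    -- a large bound
    obtain ⟨m, hm⟩ : ∃ m : ℕ, m = max (max k (Module.finrank ℚ K)) ⌈4 / γ⌉₊ := ⟨_, rfl⟩
    have hmk : k ≤ m := by rw [hm]; exact (le_max_left _ _).trans (le_max_left _ _)
    have hmK : Module.finrank ℚ K ≤ m := by
      rw [hm]; exact (le_max_right _ _).trans (le_max_left _ _)
    have hmγ : 4 / γ ≤ (m : ℝ) := by
      refine (Nat.le_ceil _).trans ?_
      exact_mod_cast (by rw [hm]; exact le_max_right _ _ : ⌈4 / γ⌉₊ ≤ m)
    obtain ⟨T₁, hT₁⟩ := (eventually_atTop.1 (hω.eventually_ge_atTop m))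
    obtain ⟨T₂, hT₂⟩ : ∃ T₂ : ℝ, T₂ = max (max T₀ T₁) 1 := ⟨_, rfl⟩
    have hT21 : 1 ≤ T₂ := by rw [hT₂]; exact le_max_right _ _
    -- the count for large parameters
    have hlarge : ∀ T : ℝ, T₂ ≤ T → (ExcEnd f (InnerM U k) K io Γ (k : ℝ) T).Finite ∧
        ((ExcEnd f (InnerM U k) K io Γ (k : ℝ) T).ncard : ℝ) ≤ T ^ (γ / 4) := by
      intro T hT
      have h0 : T₀ ≤ T := le_trans (by rw [hT₂]; exact (le_max_left _ _).trans (le_max_left _ _)) hT
      have h1 : T₁ ≤ T :=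
        le_trans (by rw [hT₂]; exact (le_max_right _ _).trans (le_max_left _ _)) hT
      have hT1 : 1 ≤ T := hT21.trans hT
      have h2 : m ≤ ω T := hT₁ T h1
      obtain ⟨h3, h4⟩ := hmain T h0
      obtain ⟨-, h5, h6, -⟩ := h4 K (hmK.trans h2) io
      rw [hX, Nat.sub_self, pow_zero, mul_one] at h6
      have hsub : ExcEnd f (InnerM U k) K io Γ (k : ℝ) T ⊆
          ExcEnd f (InnerM U (ω T)) K io Γ (ω T : ℝ) T :=
        excEnd_mono (innerM_mono U hk (hmk.trans h2)) io Γ (Nat.cast_nonneg _)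
          (by exact_mod_cast hmk.trans h2) hT1 le_rfl
      refine ⟨h5.subset hsub, ?_⟩
      have h7 : ((ExcEnd f (InnerM U k) K io Γ (k : ℝ) T).ncard : ℝ) ≤
          ((ExcEnd f (InnerM U (ω T)) K io Γ (ω T : ℝ) T).ncard : ℝ) := by
        exact_mod_cast Set.ncard_le_ncard hsub h5
      refine h7.trans (h6.trans ?_)
      have h8 : (0 : ℝ) < ω T := by exact_mod_cast h3
      have h9 : (m : ℝ) ≤ ω T := by exact_mod_cast h2
      refine Real.rpow_le_rpow_of_exponent_le hT1 ?_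
      rw [inv_le_comm₀ h8 (by positivity)]
      calc (γ / 4)⁻¹ = 4 / γ := by rw [inv_div]
        _ ≤ m := hmγ
        _ ≤ ω T := h9
    obtain ⟨hf2, -⟩ := hlarge T₂ le_rfl
    have hsum : Summable fun s : {s : X → K // s ∈ ExcEnd f (InnerM U k) K io Γ (k : ℝ)
        (ht s : ℝ)} => ((ht s.1 : ℕ) : ℝ) ^ (-(γ / 2)) := by
      refine Pool.Agent.R479.DA.summable_heights
        (fun s : {s : X → K // s ∈ ExcEnd f (InnerM U k) K io Γ (k : ℝ) (ht s : ℝ)} =>
          ((ht s.1 : ℕ) : ℝ))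
        (fun s => hone s.1) (s := γ / 4) (p := γ / 2)
        (C := ((ExcEnd f (InnerM U k) K io Γ (k : ℝ) T₂).ncard : ℝ) + 1)
        (by linarith) (by linarith) (fun Y hY => ?_)
      have hY1 : 1 ≤ Y ^ (γ / 4) := Real.one_le_rpow hY (by linarith)
      have hmaps : ∀ T : ℝ, Y ≤ T → Set.MapsTo Subtype.val
          {s : {s : X → K // s ∈ ExcEnd f (InnerM U k) K io Γ (k : ℝ) (ht s : ℝ)} |
            ((ht s.1 : ℕ) : ℝ) ≤ Y} (ExcEnd f (InnerM U k) K io Γ (k : ℝ) T) := by
        intro T hT s hs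
        exact excEnd_mono (subset_refl _) io Γ (Nat.cast_nonneg _) le_rfl (hone s.1)
          (le_trans hs hT) s.2
      have hinj : Set.InjOn Subtype.val
          {s : {s : X → K // s ∈ ExcEnd f (InnerM U k) K io Γ (k : ℝ) (ht s : ℝ)} |
            ((ht s.1 : ℕ) : ℝ) ≤ Y} := Subtype.val_injective.injOn
      by_cases h1 : T₂ ≤ Y
      · obtain ⟨h2, h3⟩ := hlarge Y h1
        refine ⟨h2.of_injOn (hmaps Y le_rfl) hinj, ?_⟩
        have h4 := Set.ncard_le_ncard_of_injOn _ (hmaps Y le_rfl) hinj h2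
        have h5 := le_trans (Nat.cast_le (α := ℝ).2 h4) h3
        refine h5.trans ?_
        have h6 : (0 : ℝ) ≤ ((ExcEnd f (InnerM U k) K io Γ (k : ℝ) T₂).ncard : ℝ) :=
          Nat.cast_nonneg _
        nlinarith
      · push Not at h1
        refine ⟨hf2.of_injOn (hmaps T₂ h1.le) hinj, ?_⟩
        have h4 := Set.ncard_le_ncard_of_injOn _ (hmaps T₂ h1.le) hinj hf2
        have h5 := Nat.cast_le (α := ℝ).2 h4
        refine h5.trans ?_
        have h6 : (0 : ℝ) ≤ ((ExcEnd f (InnerM U k) K io Γ (k : ℝ) T₂).ncard : ℝ) :=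
          Nat.cast_nonneg _
        nlinarith
    exact Pool.Agent.R909.RS.single (P := P)
      (nm := fun s : X → K => (ht s : ℝ)) (A := A) (γ := γ) (C := C) (fun x _ => hA x)
      (Q := fun s => s ∈ ExcEnd f (InnerM U k) K io Γ (k : ℝ) (ht s : ℝ))
      (H := fun s => ((ht s : ℕ) : ℝ))
      (fun z _ => hone z) (u := fun z => z) (K := 1) one_pos
      (fun z _ => by rw [one_mul]) hγ.le (p := γ / 2) (η := γ / 2)
      (by linarith) (by linarith) hsum
  have hae : ∀ᵐ ω' ∂P, ∀ k : ℕ, 1 ≤ k →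
      {s : X → K | s ∈ A ω' ∧ s ∈ ExcEnd f (InnerM U k) K io Γ (k : ℝ) (ht s : ℝ)}.Finite := by
    rw [ae_all_iff]
    intro k
    by_cases hk : 1 ≤ k
    · filter_upwards [(key k hk).1] with ω' h1 _
      exact h1.subset fun s hs => ⟨hs.2, hs.1⟩
    · exact Eventually.of_forall fun ω' h1 => absurd h1 hk
  refine ⟨⟨hae, fun k hk => ?_⟩, fun hinf hst => ?_⟩
  · obtain ⟨-, D, hD⟩ := key k hk
    refine ⟨D, fun y hy => le_trans (measure_mono ?_) (hD y hy)⟩
    rintro ω' ⟨s, h1, h2, h3⟩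
    exact ⟨s, h3, h2, h1⟩
  · filter_upwards [hae] with ω' h1 k hk
    refine (h1 k hk).subset ?_
    rintro s ⟨h2, h3⟩
    exact ⟨h2, cm_sub Γ hinf hst (innerM_subset U hk) K io _ _ h3⟩

end Pool.Agent.Results.MP_2794d1_ag.RandomCMPoints
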