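import Pool.Agent.R349.MVBall5
import Pool.Agent.Y890.VH.Main

/-!
# Points with complex multiplication of variations of Hodge structure in small balls

The starting file `MP_2794d1_ag`, `BoundedEndomorphisms`, covers the points of height at most `T` with complex
multiplication by an endomorphism of size at most `T ^ k` with distinct eigenvalues by `T ^ ε` hypersurfaces of the base.
Here we look at the smallest scale: in each ball of radius `T ^ (-η)`, for every `η > 0`, these points lie on a bounded
number of hypersurfaces of bounded degree (for one parameter: there is a bounded number of them). The bounds do not depend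
on `T`, the number field and the ball.

The definitions (`Pool.Agent.Y890.VH`, `Pool.Agent.Y890.MV`, `Pool.Agent.Y124`, `Pool.Agent.Y120`):
* `f ⟨j, (m, c)⟩` is the entry `(m, c)` of the matrix `F_j` (a basis of a piece of the Hodge filtration in a flat basis);
* `RegularM U f` : the elements of the field generated by the coordinates and the functions `f` which are algebraic over
  the field of rational functions of the coordinates are rational functions;
* `MonInv U f γ` : polynomial relations over `ℂ[x]` between the `F_j` on `U` are relations between the `γ F_j`;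
* `ExcEnd f Lc K io Γ a T` : points of `K ^ X` of height at most `T` in `Lc` such that some matrix `M` over the integers
  of `K`, with all conjugates of the entries at most `T ^ a`, preserves the column spaces of all `F_j(s)`, but not those
  of all `γ F_j(s)`, `γ ∈ Γ`;
* `CMPts f Lc K io a T` : points of `K ^ X` of height at most `T` in `Lc` such that some such matrix `M` with distinct
  eigenvalues preserves the column spaces of all `F_j(s)`;
* `Stab Γ y` : the elements of `Γ` which preserve the column spaces of all `F_j`;
* `InnerM U k` : the points of norm at most `k` at distance at least `1 / k` from the complement of `U`;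
* `Cov D m S` : `S` is covered by at most `m` hypersurfaces of degree at most `D`.
-/

set_option autoImplicit false

namespace Pool.Agent.Results.MP_2794d1_ag.SmallBalls

open Pool.Agent Pool.Agent.Y890.MV Pool.Agent.Y890.VH

/-- Let `U` be a nonempty connected open subset of `ℂ ^ X`, `F_j`, `j` in a finite set `J`, matrices of analytic functions
on `U` with `RegularM U f`, and `Γ` a subgroup of `GL_H(ℂ)` with `MonInv U f γ` for all `γ ∈ Γ` (e.g. the monodromy).
For all `k` and `η > 0` there are `C` and `T₀` such that for all number fields `K` of degree at most `k`, embedded in `ℂ`,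
all `T ≥ T₀` and all points `t₀` of `ℂ ^ X`: the points of `ExcEnd` (with `Lc = InnerM U k`, `a = k`) at distance at most
`T ^ (-η)` from `t₀` lie on at most `C` hypersurfaces of degree at most `C`, and for all finite subsets `B j` of `K` at
most `C ∑_j ∏_{i ≠ j} |B i|` of them have coordinates in the `B j`. If `Γ` is infinite and its elements which preserve the
column spaces of all `F_j(x)` are finite in number for every `x ∈ U`, then the same holds for the points of `CMPts`. -/
theorem result {X H J : Type} [Fintype X] [DecidableEq X] [Nonempty X] [Fintype H] [DecidableEq H] [Fintype J]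
    [DecidableEq J] {r : J → ℕ} {U : Set (X → ℂ)} {f : Sg H J r → (X → ℂ) → ℂ}
    (hU : IsPreconnected U) (hUo : IsOpen U) (hne : U.Nonempty) (hf : ∀ i, AnalyticOnNhd ℂ (f i) U)
    (hreg : RegularM U f) (Γ : Subgroup (GL H ℂ)) (hΓ : ∀ γ ∈ Γ, MonInv U f (γ : Matrix H H ℂ)) (k : ℕ) (η : ℝ)
    (hη : 0 < η) :
    ∃ (C : ℕ) (T₀ : ℝ), ∀ (K : Type) [Field K] [NumberField K], Module.finrank ℚ K ≤ k → ∀ (io : K →+* ℂ) (T : ℝ),
      T₀ ≤ T → ∀ t₀ : X → ℂ, ∀ S : Set (X → K), (S = ExcEnd f (InnerM U k) K io Γ (k : ℝ) T ∨
          (Infinite Γ ∧ (∀ x ∈ U, (Stab Γ fun y => f y x).Finite) ∧ S = CMPts f (InnerM U k) K io (k : ℝ) T)) →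
        Y124.Cov C C {t | ‖t - t₀‖ ≤ T ^ (-η) ∧ ∃ s ∈ S, t = fun j => io (s j)} ∧
        ∀ (B : X → Finset K) (E : Finset (X → K)),
          (∀ s ∈ E, (∀ j, s j ∈ B j) ∧ s ∈ S ∧ ‖(fun j => io (s j)) - t₀‖ ≤ T ^ (-η)) →
            E.card ≤ C * ∑ j, ∏ i ∈ Finset.univ.erase j, (B i).card := by
  rcases Nat.eq_zero_or_pos k with hk | hk
  · refine ⟨0, 0, ?_⟩
    intro K _ _ hK
    have h1 : 0 < Module.finrank ℚ K := Module.finrank_pos
    omega
  obtain ⟨D, C, T₀, -, Hc⟩ := R349.MVB.excEndB hU hUo hne hf hreg Γ hΓ (InnerM U k) (innerM_compact _ _)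
    (innerM_sub _ hk) k (k : ℝ) η (Nat.cast_nonneg _) hη
  refine ⟨D + C + C * D, T₀, fun K _ _ hK io T hT t₀ S hS => ?_⟩
  have hS' : S ⊆ ExcEnd f (InnerM U k) K io Γ (k : ℝ) T := by
    rcases hS with h | ⟨hinf, hst, h⟩
    · rw [h]
    · rw [h]
      exact cm_sub Γ hinf hst (innerM_sub _ hk) K io _ T
  have h1 := Hc K hK io T hT t₀
  have h2 : Y124.Cov D C {t | ‖t - t₀‖ ≤ T ^ (-η) ∧ ∃ s ∈ S, t = fun j => io (s j)} := by
    refine h1.mono le_rfl le_rfl ?_
    rintro t ⟨ht, s, hs, rfl⟩
    exact ⟨⟨s, hS' hs, rfl⟩, ht⟩
  refine ⟨h2.mono (by omega) (by omega) (Set.Subset.refl _), fun B E hE => ?_⟩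
  refine (R349.MVB.cov_prod io B _ h2 E fun s hs => ?_).trans (Nat.mul_le_mul_right _ (by omega))
  obtain ⟨h3, h4, h5⟩ := hE s hs
  exact ⟨h3, h5, s, h4, rfl⟩

end Pool.Agent.Results.MP_2794d1_ag.SmallBalls
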